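import Mathlib
import Pool.Agent.L7h72.HW.Deg
import Pool.Agent.L7h72.HW.Up

set_option autoImplicit false

/-!
# Sparse sets of shifts: subsets all of whose differences satisfy the lower half of the formula

Let `k ≥ 2` and `B, U` be given. There is a `C` such that for all large `x`, all `δ` with
`(log x)^(-U) ≤ δ ≤ 1` and EVERY set `A` of at least `(C log log x / δ)^(k-1) log x` integers of
`[0, (log x)^B]`, a proportion of at least `(δ / (C log log x))^(k^2)` of the `k`-tuples of `A` are sets of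
`k` elements ALL of whose `k (k - 1) / 2` differences `d` are even and satisfy
`π₂(x, d) ≥ (1 - δ) 𝔖(d) x / (log x)^2`, with the constant of the conjecture. With `δ = ε / (log log x)^2`
this is the precision of the question: the sets `A` may then be as small as `(log x) (log log x)^(3k)`.

Proof. Let `θ` be the logarithm on the primes and `λ` the sieve model (`∏ p / (p - 1)` on the integers
without prime factors up to the length of the window). By Cauchy's inequality
`∑_m (∑_a w_a θ(m + a))^2 ≥ (∑_m (∑_a w_a θ(m + a)) (∑_b w_b λ(m + b)))^2 / ∑_m (∑_b w_b λ(m + b))^2` and both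
sums on the right are `x ∑ w_a w_b G(b - a)` up to powers of the logarithm (`Pool.Agent.H373R2.T7`), where
`G ≥ 𝔖` is the truncated singular series: in every set of at least `32 log x / δ` shifts the formula holds
from below on average. With the uniform upper bound of the sieve (`Pool.Agent.W218.TX.pi_upper`) many pairs
of every such set are good, and the good `k`-subsets are found by taking neighbourhoods.
-/

namespace Pool.Agent.Results.MP_678834_nt.CliquesOfSharpDifferences

open Finset

/-- The twin prime constant `C₂`. -/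
noncomputable def C2 : ℝ := ∏' p : {p : ℕ // p.Prime ∧ 2 < p}, (1 - 1 / (((p.1 : ℕ) : ℝ) - 1) ^ 2)

/-- The singular series: `𝔖(d) = 2 C₂ ∏_{p ∣ d, p ≥ 3} (p - 1) / (p - 2)` for even `d` and `0` for odd `d`. -/
noncomputable def S (d : ℕ) : ℝ :=
  if Even d then 2 * C2 * ∏ p ∈ d.primeFactors.filter (fun p : ℕ => 2 < p), (((p : ℝ) - 1) / ((p : ℝ) - 2)) else 0

/-- `π₂(x, d)`, the number of primes `p ≤ x` with `p - d` prime. -/
noncomputable def pi2 (x : ℝ) (d : ℕ) : ℕ := ((Icc 1 ⌊x⌋₊).filter (fun p : ℕ => p.Prime ∧ (p - d).Prime)).card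

/-- `d` is even and `π₂(x, d) ≥ (1 - δ) 𝔖(d) x / (log x)^2`. -/
def Good (x δ : ℝ) (d : ℕ) : Prop := Even d ∧ (1 - δ) * (S d * x / Real.log x ^ 2) ≤ (pi2 x d : ℝ)

open Classical in
/-- The `k`-element subsets of `A` all of whose positive differences are good. -/
noncomputable def goodSets (x δ : ℝ) (k : ℕ) (A : Finset ℕ) : Finset (Finset ℕ) :=
  (A.powersetCard k).filter (fun D => ∀ a ∈ D, ∀ b ∈ D, a < b → Good x δ (b - a))

/-- Every set of at least `(C log log x / δ)^(k-1) log x` integers of `[0, (log x)^B]` has at least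
`(δ / (C log log x))^(k^2) |A|^k` subsets of `k` elements all of whose differences `d` are even with
`π₂(x, d) ≥ (1 - δ) 𝔖(d) x / (log x)^2`. -/
theorem result (k B U : ℕ) (hk : 2 ≤ k) : ∃ C X : ℝ, 0 < C ∧ ∀ x : ℝ, X ≤ x → ∀ δ : ℝ,
    1 / Real.log x ^ U ≤ δ → δ ≤ 1 → ∀ A : Finset ℕ, (∀ a ∈ A, (a : ℝ) ≤ Real.log x ^ B) →
    (C * Real.log (Real.log x) / δ) ^ (k - 1) * Real.log x ≤ A.card →
    (δ / (C * Real.log (Real.log x))) ^ (k ^ 2) * (A.card : ℝ) ^ k ≤ ((goodSets x δ k A).card : ℝ) := by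
  classical
  obtain ⟨C0, hC0, hup⟩ := Pool.Agent.L7h72.HW.upper B
  obtain ⟨X1, h1⟩ := Pool.Agent.L7h72.HW.deg B U hC0 hup
  have t1 := Real.tendsto_log_atTop.eventually_ge_atTop (16 : ℝ)
  have t2 := (Real.tendsto_log_atTop.comp Real.tendsto_log_atTop).eventually_ge_atTop (1 : ℝ)
  have t3 := Filter.eventually_ge_atTop X1
  obtain ⟨X, hX⟩ := Filter.eventually_atTop.1 (t1.and (t2.and t3))
  refine ⟨256 * C0, X, by linarith, fun x hx δ hδ hδ1 A hA hn => ?_⟩
  obtain ⟨u1, u2, u3⟩ := hX x hx
  simp only [Function.comp] at u2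
  obtain ⟨l, hl⟩ : ∃ l, l = Real.log x := ⟨_, rfl⟩
  rw [← hl] at u1 u2 hδ hn ⊢
  have hl0 : 0 < l := by linarith
  have hδ0 : 0 < δ := lt_of_lt_of_le (by positivity) hδ
  obtain ⟨m, rfl⟩ : ∃ m, k = m + 2 := ⟨k - 2, by omega⟩
  obtain ⟨Y, hY⟩ : ∃ Y, Y = 256 * C0 * Real.log l := ⟨_, rfl⟩
  rw [← hY] at hn ⊢
  have hY256 : 256 ≤ Y := by
    rw [hY]
    have : (1 : ℝ) * 1 ≤ C0 * Real.log l := mul_le_mul hC0 u2 (by norm_num) (by linarith)
    linarith
  have hY0 : 0 < Y := by linarith
  obtain ⟨c, hc⟩ : ∃ c, c = δ / (128 * C0 * Real.log l) := ⟨_, rfl⟩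
  have hcY : c / 2 = δ / Y := by
    rw [hc, hY]
    have h5 : C0 ≠ 0 := by linarith
    have h6 : Real.log l ≠ 0 := by linarith
    field_simp
    norm_num
  have hc0 : 0 < c := by
    have : 0 < c / 2 := by rw [hcY]; positivity
    linarith
  have hc1 : c ≤ 1 := by
    have h5 : δ / Y ≤ 1 / 256 := div_le_div₀ (by norm_num) hδ1 (by norm_num) hY256
    linarith
  have key := Pool.Agent.L7h72.HW.cliques_card (Pool.Agent.L7h72.HW.good x δ) A (c := c) (n0 := 32 * l / δ) hc0 hc1
    (fun A' hA' hn' => by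
      have h5 := h1 x u3 δ (by rw [← hl]; exact hδ) hδ1 A' (fun a ha => hA a (hA' ha)) (by
        rw [← hl]
        rw [div_le_iff₀ hδ0] at hn'
        linarith)
      rw [← hl, ← hc] at h5
      exact h5) (m + 1) A (Subset.refl A) (Or.inr (by
        rw [Nat.add_sub_cancel, hcY]
        have e : m + 2 - 1 = m + 1 := by omega
        rw [e] at hn
        have h6 : 0 < (δ / Y) ^ m := by positivity
        have h7 := mul_le_mul_of_nonneg_left hn h6.le
        refine le_trans ?_ h7
        have e2 : (δ / Y) ^ m * ((Y / δ) ^ (m + 1) * l) = Y * l / δ := by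
          rw [pow_succ, div_pow, div_pow]
          have h8 : δ ≠ 0 := hδ0.ne'
          field_simp
        rw [e2]
        apply div_le_div_of_nonneg_right _ hδ0.le
        exact mul_le_mul_of_nonneg_right (by linarith) hl0.le))
  rw [hcY] at key
  exact key

end Pool.Agent.Results.MP_678834_nt.CliquesOfSharpDifferences
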