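import Mathlib
import Pool.Agent.L7h36.DS.FinW
import Pool.Agent.N646.RG.All

/-!
# Shifts in several short windows: prime pairs of the right order

`S d` is the singular series of the prime pairs with difference `d`, without its constant factor `2 C₂`.

Let `l ≥ 1` and `ε, η, lam > 0`. There is `κ > 0` such that for all large `x`, every `H ≥ lam log x`, ANY `l` windows
`[u i, u i + H]` with `u i + H ≤ x / 100` (they may be far apart from each other, and they may overlap) and every set
`A` of at least `η H` integers in the union of the windows: the pairs `a < b` of elements of `A` with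
`π₂(x, b - a) ≥ κ S(b - a) x / (log x)^2` carry at least the proportion `1/3 - ε` of the sum of `S(b - a)` over all
pairs `a < b` of elements of `A` (this sum is at least `η^2 H^2 / 8`).

In the question the windows may be of length `lam log x`, any small multiple of the average distance of consecutive
primes, anywhere in `[0, (log x)^2]`. For complete windows `[0, H]`, `[u, u + H]` (`l = 2`) the theorem says that the
proportions of the good differences in `[1, H]` and in `[u - H, u + H]` (weighted by the singular series and by the
number of the pairs with this difference) have the sum at least `2/3 - 2 ε`, for EVERY `u`; for `l = 4` the mean of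
these proportions for the six windows around the differences of ANY four points is at least `1/9 - 2 ε`.

Proof: one class of shifts modulo the product `W` of the primes up to a large constant. In one class, few
configurations of `4` groups of `K` elements, each in one of the windows, have no two elements of different groups
which form a good pair (`Pool.Agent.N646.RG.sHITM2`, coloured Maynard-Tao theorem with the right order of magnitude,
helper646); so few quadruples of elements of `A` in the class contain no good pair (blow-ups), and Turan's theorem
gives a proportion `1/3 - ε` of good pairs. In the sum over all classes the number of the classes `b` with `b + a` and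
`b + a'` prime to `W` gives the part of the singular series with the primes up to a constant. The other primes:
moments of the singular series in short windows far from the origin, by Mertens' theorem for the primes up to the
length of the window and a bound for the number of the larger prime factors.
-/

set_option autoImplicit false

namespace Pool.Agent.Results.MP_678834_nt.DenseSetsInWindows

open Finset

/-- `𝔖(d) / (2 C₂)`: the product of `(p - 1) / (p - 2)` over the odd primes dividing `d`; zero for odd `d` -/
noncomputable def S (d : ℕ) : ℝ :=
  if Even d then ∏ p ∈ d.primeFactors.filter (fun p : ℕ => 2 < p), (((p : ℝ) - 1) / ((p : ℝ) - 2)) else 0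

/-- `π₂(x, d)`, the number of the primes `p ≤ x` for which `p - d` is a prime -/
noncomputable def pi2 (x : ℝ) (d : ℕ) : ℕ := ((Icc 1 ⌊x⌋₊).filter (fun p : ℕ => p.Prime ∧ (p - d).Prime)).card

/-- the sum of `S(b - a)` over the pairs `a < b` of elements of `A` -/
noncomputable def weight (A : Finset ℕ) : ℝ := ∑ y ∈ (A ×ˢ A).filter (fun y => y.1 < y.2), S (y.2 - y.1)

open Classical in
/-- the part of the pairs with `π₂(x, b - a) ≥ κ S(b - a) x / (log x)^2` -/
noncomputable def goodWeight (κ x : ℝ) (A : Finset ℕ) : ℝ :=
  ∑ y ∈ (A ×ˢ A).filter (fun y => y.1 < y.2 ∧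
    κ * (S (y.2 - y.1) * (x / Real.log x ^ 2)) ≤ (pi2 x (y.2 - y.1) : ℝ)), S (y.2 - y.1)

/-- **Dense sets in a union of windows.** -/
theorem result (l : ℕ) (hl : 1 ≤ l) (ε η lam : ℝ) (hε : 0 < ε) (hη : 0 < η) (hlam : 0 < lam) :
    ∃ κ : ℝ, 0 < κ ∧ ∃ X : ℝ, ∀ x : ℝ, X ≤ x → ∀ H : ℕ, lam * Real.log x ≤ H →
      ∀ u : Fin l → ℕ, (∀ i, 100 * ((u i : ℝ) + H) ≤ x) →
        ∀ A : Finset ℕ, (∀ a ∈ A, ∃ i, u i ≤ a ∧ a ≤ u i + H) → η * H ≤ A.card →
          η ^ 2 / 8 * (H : ℝ) ^ 2 ≤ weight A ∧ (1 / 3 - ε) * weight A ≤ goodWeight κ x A := by
  have hH := Pool.Agent.N646.RG.sHITM2 1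
  obtain ⟨κ, hκ, X, h⟩ := Pool.Agent.L7h36.DS.finW hH l hl ε η lam hε hη hlam
  refine ⟨κ, hκ, X, fun x hx H hlH u hu A hA hAd => ?_⟩
  obtain ⟨h1, h2⟩ := h x hx H hlH u hu A hA hAd
  refine ⟨h1, h2.trans (le_of_eq ?_)⟩
  unfold goodWeight
  congr

end Pool.Agent.Results.MP_678834_nt.DenseSetsInWindows
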