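import Mathlib
import Pool.Agent.L7h36.DS.Fin
import Pool.Agent.N646.RG.All

/-!
# Dense sets of shifts: prime pairs of the right order, simultaneously for several multiples and heights

`S d` is the singular series of the prime pairs with difference `d`, without its constant factor `2 C₂`.
Let `T 0, T 1, … = 2, 4, 11, 37, 130, …`, `T (m + 1) = ⌊18 (T m - 1) / 5⌋ + 1`.

Let `t 1, …, t r ≥ 1` be integers and `ε, η, lam > 0`. There is `κ > 0` such that, for all large heights
`x 1, …, x s` and EVERY scale `H` with `lam log x i ≤ H ≤ x i / (100 t j)`, every set `A` of at least `η H` integers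
in `[1, H]` has the following property: the pairs `a < b` of elements of `A` such that ALL the numbers
`d = t j (b - a)` satisfy `π₂(x i, d) ≥ κ S(d) x i / (log x i)^2` at ALL the heights `x i` carry at least the
proportion `1 / (T (r s) - 1) - ε` of the sum of `∏ S(t j (b - a))` over all pairs `a < b` of elements of `A` (this
sum is at least `η^2 H^2 / 2^(r+2)`). So the proportion is `1/3` for one height and `d = b - a`, `1/10` for two
heights, or for `d` and `2 d` at one height, and so on. In the question `H = (log x)^2`.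

Proof: one class of shifts modulo the product `W` of the primes up to a large constant. In one class, few
configurations of `T` groups of `K` elements of `A` have no `M + 1` groups with pairwise good representatives if
`18 M / 5 < T` (`Pool.Agent.N646.RG.sHITM2`, coloured Maynard-Tao theorem with the right order of magnitude, helper646);
so few `T`-tuples of elements of the class contain no `M + 1` pairwise good elements (blow-ups). This is applied
successively for the `r s` conditions; a random `T (r s)`-tuple contains `T (r s - 1)` elements good for one condition,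
among them `T (r s - 2)` good for the next one, and so on. Then Turan's theorem (supersaturation), and the sum over
all classes, in which the number of the classes `b` with `b + t j a` and `b + t j a'` prime to `W` gives the singular
series.
-/

set_option autoImplicit false

namespace Pool.Agent.Results.MP_678834_nt.DenseSetsOfShifts

open Finset

/-- `𝔖(d) / (2 C₂)`: the product of `(p - 1) / (p - 2)` over the odd primes dividing `d`; zero for odd `d` -/
noncomputable def S (d : ℕ) : ℝ :=
  if Even d then ∏ p ∈ d.primeFactors.filter (fun p : ℕ => 2 < p), (((p : ℝ) - 1) / ((p : ℝ) - 2)) else 0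

/-- `π₂(x, d)`, the number of the primes `p ≤ x` for which `p - d` is a prime -/
noncomputable def pi2 (x : ℝ) (d : ℕ) : ℕ := ((Icc 1 ⌊x⌋₊).filter (fun p : ℕ => p.Prime ∧ (p - d).Prime)).card

/-- `2, 4, 11, 37, 130, …` -/
def T : ℕ → ℕ
  | 0 => 2
  | m + 1 => 18 * (T m - 1) / 5 + 1

/-- all the `t j * d` have the right order of magnitude (with the constant `κ`) at all the heights `x i` -/
def Good {r s : ℕ} (κ : ℝ) (t : Fin r → ℕ) (x : Fin s → ℝ) (d : ℕ) : Prop :=
  ∀ (i : Fin s) (j : Fin r), κ * (S (t j * d) * (x i / Real.log (x i) ^ 2)) ≤ (pi2 (x i) (t j * d) : ℝ)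

/-- the sum of `∏ S(t j (b - a))` over the pairs `a < b` of elements of `A` -/
noncomputable def weight {r : ℕ} (t : Fin r → ℕ) (A : Finset ℕ) : ℝ :=
  ∑ y ∈ (A ×ˢ A).filter (fun y => y.1 < y.2), ∏ j, S (t j * (y.2 - y.1))

open Classical in
/-- the part of the pairs for which `b - a` is `Good` -/
noncomputable def goodWeight {r s : ℕ} (κ : ℝ) (t : Fin r → ℕ) (x : Fin s → ℝ) (A : Finset ℕ) : ℝ :=
  ∑ y ∈ (A ×ˢ A).filter (fun y => y.1 < y.2 ∧ Good κ t x (y.2 - y.1)), ∏ j, S (t j * (y.2 - y.1))

/-- the multipliers `t`, the heights `x` and the scale `H` are admissible -/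
def Range {r s : ℕ} (lam X : ℝ) (t : Fin r → ℕ) (x : Fin s → ℝ) (H : ℕ) : Prop :=
  (∀ i, X ≤ x i) ∧ X ≤ H ∧ (∀ i, lam * Real.log (x i) ≤ H) ∧ ∀ i j, 100 * ((t j : ℝ) * H) ≤ x i

lemma T_eq (m : ℕ) : T m = Pool.Agent.L7h36.DS.TT m := by
  induction m with
  | zero => rfl
  | succ m ih =>
    show 18 * (T m - 1) / 5 + 1 = 18 * (Pool.Agent.L7h36.DS.TT m - 1) / 5 + 1
    rw [ih]

open Classical in
/-- **Dense sets of shifts, several multiples of the differences, several heights.** -/
theorem result (r s : ℕ) (t : Fin r → ℕ) (ht : ∀ j, 1 ≤ t j) (ε η lam : ℝ) (hε : 0 < ε) (hη : 0 < η)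
    (hlam : 0 < lam) :
    ∃ κ : ℝ, 0 < κ ∧ ∃ X : ℝ, ∀ (x : Fin s → ℝ) (H : ℕ), Range lam X t x H →
      ∀ A : Finset ℕ, A ⊆ Icc 1 H → η * H ≤ A.card →
        η ^ 2 / 2 ^ (r + 2) * (H : ℝ) ^ 2 ≤ weight t A ∧
        (1 / ((T (r * s) : ℝ) - 1) - ε) * weight t A ≤ goodWeight κ t x A := by
  have hH := Pool.Agent.N646.RG.sHITM2 1
  obtain ⟨κ, hκ, X, h⟩ := Pool.Agent.L7h36.DS.fin hH s t ht ε η lam hε hη hlam
  refine ⟨κ, hκ, X, fun x H hR A hA hAd => ?_⟩
  obtain ⟨h1, h2⟩ := h x hR.1 H hR.2.1 hR.2.2.1 hR.2.2.2 A hA hAd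
  refine ⟨h1, ?_⟩
  rw [T_eq]
  refine h2.trans (le_of_eq ?_)
  unfold goodWeight Good
  congr

end Pool.Agent.Results.MP_678834_nt.DenseSetsOfShifts
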