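import Mathlib
import Pool.Agent.L7h36.DS.RamC
import Pool.Agent.N646.RG.All

/-!
# Ramsey's theorem relative to the differences with the right order of magnitude, at every scale

`S d` is the singular series of the prime pairs with difference `d`, without its constant factor `2 C₂`.

Let `t 1, …, t r ≥ 1` and `u, q` be integers, `K` a finite set of colours and `η, lam > 0`. There are `δ, κ > 0`
such that, for all large heights `x 1, …, x s`, EVERY scale `H` with `lam log x i ≤ H ≤ x i / (100 t j)`, every set
`A` of at least `η H` integers in `[1, H]` and every colouring of the `u`-element sets of integers with the colours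
`K`, a positive proportion of the `q`-element subsets of `A` (at least `δ H^q` of them) have the following two
properties: all `u`-element subsets of `Q` have the same colour, and for ALL pairs `a < b` of elements of `Q` all the
numbers `d = t j (b - a)` are even and satisfy `π₂(x i, d) ≥ κ S(d) x i / (log x i)^2` at ALL the heights `x i`.

For `A = [1, H]`, `u = 2` and colourings of the differences this gives for example `≥ δ H^2` solutions of
`d + d' = d''` in one colour among the differences with the right order of magnitude. In the question
`H = (log x)^2`.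

Proof: Let `R` be a Ramsey number for a large number `T (r s)` of elements in place of `q`. In one class of shifts
modulo the product of the primes up to a large constant, few configurations of `T` groups of `K` elements of `A` have
no `M + 1` groups with pairwise good representatives if `18 M / 5 < T` (`Pool.Agent.N646.RG.sHITM2`, coloured
Maynard-Tao theorem with the right order of magnitude, helper646), so few `T`-tuples of elements of the class contain
no `M + 1` pairwise good elements (blow-ups). Almost every `R`-tuple of elements of the class is outside all the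
exceptional sets, for the `r s` conditions one after the other; it contains `T (r s)` elements with one colour, and
among these `q` elements which are pairwise good for all the conditions. Then the few `q`-sets containing a pair
with a large singular series are removed.
-/

set_option autoImplicit false

namespace Pool.Agent.Results.MP_678834_nt.RamseyForDifferences

open Finset

/-- `𝔖(d) / (2 C₂)`: the product of `(p - 1) / (p - 2)` over the odd primes dividing `d`; zero for odd `d` -/
noncomputable def S (d : ℕ) : ℝ :=
  if Even d then ∏ p ∈ d.primeFactors.filter (fun p : ℕ => 2 < p), (((p : ℝ) - 1) / ((p : ℝ) - 2)) else 0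

/-- `π₂(x, d)`, the number of the primes `p ≤ x` for which `p - d` is a prime -/
noncomputable def pi2 (x : ℝ) (d : ℕ) : ℕ := ((Icc 1 ⌊x⌋₊).filter (fun p : ℕ => p.Prime ∧ (p - d).Prime)).card

/-- all the `t j * d` are even and have the right order of magnitude (with the constant `κ`) at all the heights
`x i` -/
def Good {r s : ℕ} (κ : ℝ) (t : Fin r → ℕ) (x : Fin s → ℝ) (d : ℕ) : Prop :=
  ∀ j : Fin r, Even (t j * d) ∧
    ∀ i : Fin s, κ * (S (t j * d) * (x i / Real.log (x i) ^ 2)) ≤ (pi2 (x i) (t j * d) : ℝ)

open Classical in
/-- the `q`-element subsets `Q` of `A` whose `u`-element subsets have the same colour and all of whose differences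
are `Good` -/
noncomputable def goodSets {K : Type} {r s : ℕ} (κ : ℝ) (t : Fin r → ℕ) (x : Fin s → ℝ) (χ : Finset ℕ → K)
    (u q : ℕ) (A : Finset ℕ) : Finset (Finset ℕ) :=
  (A.powersetCard q).filter (fun Q => (∃ col : K, ∀ J ⊆ Q, J.card = u → χ J = col) ∧
    ∀ a ∈ Q, ∀ b ∈ Q, a < b → Good κ t x (b - a))

/-- the multipliers `t`, the heights `x` and the scale `H` are admissible -/
def Range {r s : ℕ} (lam X : ℝ) (t : Fin r → ℕ) (x : Fin s → ℝ) (H : ℕ) : Prop :=
  (∀ i, X ≤ x i) ∧ X ≤ H ∧ (∀ i, lam * Real.log (x i) ≤ H) ∧ ∀ i j, 100 * ((t j : ℝ) * H) ≤ x i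

open Classical in
/-- **Ramsey's theorem relative to the good differences.** -/
theorem result (K : Type) [Fintype K] (u q : ℕ) (hq : 2 ≤ q) (r s : ℕ) (t : Fin r → ℕ) (ht : ∀ j, 1 ≤ t j)
    (η lam : ℝ) (hη : 0 < η) (hlam : 0 < lam) :
    ∃ δ κ : ℝ, 0 < δ ∧ 0 < κ ∧ ∃ X : ℝ, ∀ (x : Fin s → ℝ) (H : ℕ), Range lam X t x H →
      ∀ A : Finset ℕ, A ⊆ Icc 1 H → η * H ≤ A.card → ∀ χ : Finset ℕ → K,
        δ * (H : ℝ) ^ q ≤ ((goodSets κ t x χ u q A).card : ℝ) := by
  have hH := Pool.Agent.N646.RG.sHITM2 1
  obtain ⟨δ, κ, hδ, hκ, X, h⟩ := Pool.Agent.L7h36.DS.ram_fin hH s t ht K u q hq η lam hη hlam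
  refine ⟨δ, κ, hδ, hκ, X, fun x H hR A hA hAd χ => ?_⟩
  have h1 := h x hR.1 H hR.2.1 hR.2.2.1 hR.2.2.2 A hA hAd χ
  refine h1.trans (le_of_eq ?_)
  unfold goodSets Good Pool.Agent.L7h36.DS.Mono
  congr

end Pool.Agent.Results.MP_678834_nt.RamseyForDifferences
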